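import Pool.Agent.H39.AH

namespace Pool.Agent.Results.MP_be00aa_lc.Proper

open Pool.Agent.H39.AH Encodable Denumerable
open Nat.Partrec (Code)

/-- structures for one binary relation symbol, with universe a nonempty subset of `ℕ` -/
structure Str where
  U : Set ℕ
  R : ℕ → ℕ → Prop
  ne : U.Nonempty
  sub : ∀ u v, R u v → u ∈ U ∧ v ∈ U

def Iso (A B : Str) : Prop := ∃ f : A.U ≃ B.U, ∀ u v : A.U, A.R u v ↔ B.R (f u) (f v)

/-- the literals `u = v`, `u ≠ v`, `R u v`, `¬R u v` (kinds 0, 1, 2, 3) true in `A` -/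
def Lit (A : Str) (k u v : ℕ) : Prop :=
  u ∈ A.U ∧ v ∈ A.U ∧ (k = 0 ∧ u = v ∨ k = 1 ∧ u ≠ v ∨ k = 2 ∧ A.R u v ∨ k = 3 ∧ ¬A.R u v)

/-- the atomic diagram as a set of numbers -/
def Diag (A : Str) (m : ℕ) : Prop := Lit A m.unpair.1 m.unpair.2.unpair.1 m.unpair.2.unpair.2

/-- the `e`-th partial computable function is the characteristic function of the diagram -/
def Computes (e : ℕ) (A : Str) : Prop := ∀ m, (Diag A m → V e m 1) ∧ (¬Diag A m → V e m 0)

/-- the isomorphism problem -/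
def E (K : Set Str) (p : ℕ × ℕ) : Prop :=
  ∃ A ∈ K, ∃ B ∈ K, Computes p.1 A ∧ Computes p.2 B ∧ Iso A B

def dl (l : List ℕ) (m : ℕ) : Prop := m.unpair.2.unpair.1 ∈ l ∧ m.unpair.2.unpair.2 ∈ l ∧
  (m.unpair.1 = 0 ∧ m.unpair.2.unpair.1 = m.unpair.2.unpair.2 ∨
    m.unpair.1 = 1 ∧ ¬m.unpair.2.unpair.1 = m.unpair.2.unpair.2 ∨ m.unpair.1 = 3)

theorem prim_dl : PrimrecRel dl := by
  have a := u1.comp (Primrec.snd (α := List ℕ))
  have b := u1.comp (u2.comp (Primrec.snd (α := List ℕ)))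
  have c := u2.comp (u2.comp (Primrec.snd (α := List ℕ)))
  exact (prim_mem.comp Primrec.fst b).and ((prim_mem.comp Primrec.fst c).and
    (((Primrec.eq.comp a (Primrec.const 0)).and (Primrec.eq.comp b c)).or
      (((Primrec.eq.comp a (Primrec.const 1)).and (Primrec.eq.comp b c).not).or
        (Primrec.eq.comp a (Primrec.const 3)))))

theorem prim_nodup : PrimrecPred fun l : List ℕ => l.Nodup := by
  refine ((PrimrecRel.forall_mem_list (R := fun i (l : List ℕ) => l.getD i 0 ∉ l.drop (i + 1))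
    (prim_mem.comp (Primrec.list_drop.comp (Primrec.succ.comp Primrec.fst) Primrec.snd)
      ((Primrec.list_getD 0).comp Primrec.snd Primrec.fst)).not).comp
        (Primrec.list_range.comp Primrec.list_length) Primrec.id).of_eq fun l => ?_
  simp only [List.mem_range, id]
  induction l with
  | nil => simp
  | cons a l ih =>
    rw [List.nodup_cons, ← ih, List.length_cons, Nat.forall_lt_succ_left]
    rfl

def Good (a n : ℕ) : Prop :=
  ∃ A : Str, (∀ u v, ¬A.R u v) ∧ A.U.Finite ∧ A.U.ncard = n ∧ Computes a A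

def T (a : ℕ) : Prop := ∀ m, V a m 0 ∨ V a m 1

def C (a n : ℕ) : Prop := ∃ l : List ℕ, (l.Nodup ∧ l.length = n ∧ 0 < n) ∧
  ¬∃ m, dl l m ∧ V a m 0 ∨ ¬dl l m ∧ V a m 1

theorem diag_iff {A : Str} (h : ∀ u v, ¬A.R u v) {l : List ℕ} (hl : ∀ u, u ∈ l ↔ u ∈ A.U) (m : ℕ) :
    Diag A m ↔ dl l m := by
  simp [Diag, Lit, dl, h, hl]

theorem good_iff {a n : ℕ} : Good a n ↔ T a ∧ C a n := by
  constructor
  · rintro ⟨A, h1, h2, rfl, h3⟩
    have h4 := diag_iff h1 (l := h2.toFinset.toList) fun u => by simp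
    refine ⟨fun m => (em (Diag A m)).elim (fun h => .inr ((h3 m).1 h)) fun h => .inl ((h3 m).2 h),
      _, ⟨Finset.nodup_toList _, by rw [Finset.length_toList, Set.ncard_eq_toFinset_card _ h2],
        (Set.ncard_pos h2).2 A.ne⟩, ?_⟩
    rintro ⟨m, ⟨a, b⟩ | ⟨a, b⟩⟩
    · exact zero_ne_one (b.uniq ((h3 m).1 ((h4 m).2 a)))
    · exact one_ne_zero (b.uniq ((h3 m).2 (mt (h4 m).1 a)))
  · rintro ⟨h1, l, ⟨h2, rfl, h3⟩, h4⟩
    let A : Str := ⟨{u | u ∈ l}, fun _ _ => False, List.exists_mem_of_length_pos h3, fun _ _ h => h.elim⟩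
    have h5 := diag_iff (A := A) (fun _ _ => id) (l := l) fun _ => Iff.rfl
    refine ⟨A, fun _ _ => id, l.finite_toSet, ?_, fun m => ⟨fun h => (h1 m).resolve_left fun b =>
      h4 ⟨m, .inl ⟨(h5 m).1 h, b⟩⟩, fun h => (h1 m).resolve_right fun b =>
        h4 ⟨m, .inr ⟨mt (h5 m).2 h, b⟩⟩⟩⟩
    rw [← List.toFinset_card_of_nodup h2, ← Set.ncard_coe_finset, List.coe_toFinset]

theorem Good.uniq {a n k : ℕ} (h : Good a n) (h' : Good a k) : n = k := by
  obtain ⟨A, -, -, rfl, h1⟩ := h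
  obtain ⟨B, -, -, rfl, h2⟩ := h'
  have key : ∀ {A B : Str}, Computes a A → Computes a B → A.U ⊆ B.U := fun {A B} h1 h2 u hu => by
    by_contra hc
    exact one_ne_zero (((h1 (Nat.pair 0 (u.pair u))).1 (by simp [Diag, Lit, hu])).uniq
      ((h2 _).2 (by simp [Diag, Lit, hc])))
  rw [(key h1 h2).antisymm (key h2 h1)]

theorem sig_T : Sig 2 fun a => ¬T a :=
  (Sig.all (P := fun a m => ¬(V a m 0 ∨ V a m 1)) ((sig_V (n := 0) Primrec.fst Primrec.snd
    (Primrec.const 0)).or (sig_V Primrec.fst Primrec.snd (Primrec.const 1))).compl).of_eq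
      fun _ => by simp only [T, not_not]

theorem sig_C : Sig 2 fun p : ℕ × ℕ => C p.1 p.2 := by
  have a : PrimrecPred fun q : ((ℕ × ℕ) × List ℕ) × ℕ => dl q.1.2 q.2 :=
    prim_dl.comp (Primrec.snd.comp Primrec.fst) Primrec.snd
  have b : Primrec fun q : ((ℕ × ℕ) × List ℕ) × ℕ => q.1.1.1 :=
    Primrec.fst.comp (Primrec.fst.comp Primrec.fst)
  have c := Primrec.snd.comp (Primrec.fst (α := ℕ × ℕ) (β := List ℕ))
  exact Sig.exl ((Sig.prim ((prim_nodup.comp Primrec.snd).and ((Primrec.eq.comp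
    (Primrec.list_length.comp Primrec.snd) c).and (Primrec.nat_lt.comp (Primrec.const 0) c)))).and
      (Sig.ex (n := 0) (((Sig.prim a).and (sig_V b Primrec.snd (Primrec.const 0))).or
        ((Sig.prim a.not).and (sig_V b Primrec.snd (Primrec.const 1))))).compl)

theorem sig_good : Sig 3 fun p : ℕ × ℕ => Good p.1 p.2 :=
  ((sig_T.compl.pc Primrec.fst).and sig_C.succ).of_eq fun _ => by rw [good_iff, not_not]

theorem sig_good2 : Sig 3 fun q : (ℕ × ℕ) × ℕ => Good q.1.1 q.2 ∧ Good q.1.2 q.2 :=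
  (sig_good.pc ((Primrec.fst.comp Primrec.fst).pair Primrec.snd)).and
    (sig_good.pc ((Primrec.snd.comp Primrec.fst).pair Primrec.snd))

theorem sig_bad : Sig 3 fun p : ℕ × ℕ => ¬∃ n, Good p.1 n ∧ Good p.2 n := by
  have a : Sig 2 fun p : ℕ × ℕ => ∃ n, C p.1 n ∧ C p.2 n :=
    Sig.ex ((sig_C.pc ((Primrec.fst.comp Primrec.fst).pair Primrec.snd)).and
      (sig_C.pc ((Primrec.snd.comp Primrec.fst).pair Primrec.snd)))
  refine ((sig_T.succ.pc Primrec.fst).or ((sig_T.succ.pc Primrec.snd).or a.compl)).of_eq fun p => ?_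
  by_cases h1 : T p.1 <;> by_cases h2 : T p.2 <;> simp [good_iff, h1, h2]

def K0 : Set Str := {A | (∀ u v, ¬A.R u v) ∧ A.U.Finite ∧ S A.U.ncard}

theorem E_iff (p : ℕ × ℕ) : E K0 p ↔ ∃ n, S n ∧ Good p.1 n ∧ Good p.2 n := by
  constructor
  · rintro ⟨A, a, B, b, c, d, f, -⟩
    exact ⟨_, a.2.2, ⟨A, a.1, a.2.1, rfl, c⟩, B, b.1, b.2.1, (Set.ncard_congr' f).symm, d⟩
  · rintro ⟨_, h, ⟨A, a1, a2, rfl, a3⟩, B, b1, b2, b3, b4⟩
    have := a2.to_subtype
    have := b2.to_subtype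
    obtain ⟨f⟩ := Finite.card_eq.1 (show Nat.card A.U = Nat.card B.U from b3.symm)
    exact ⟨A, ⟨a1, a2, h⟩, B, ⟨b1, b2, b3 ▸ h⟩, a3, b4, f, fun _ _ => iff_of_false (a1 _ _) (b1 _ _)⟩

theorem exists_idx : ∃ g : ℕ → ℕ, Primrec g ∧ ∀ n, 0 < n → Good (g n) n := by
  classical
  obtain ⟨e, he⟩ := exists_V (f := fun p : ℕ × ℕ => if dl (List.range p.1) p.2 then 1 else 0)
    (Primrec.ite (prim_dl.comp (Primrec.list_range.comp Primrec.fst) Primrec.snd)
      (Primrec.const 1) (Primrec.const 0)).to_comp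
  have h1 : ∀ n m r, V (encode ((ofNat Code e).curry n)) m r ↔
      r = if dl (List.range n) m then 1 else 0 := fun n m r => by
    rw [← he (n, m)]
    simp [V, Code.eval_curry]
  refine ⟨fun n => encode ((ofNat Code e).curry n), Primrec.encode.comp
    (Code.primrec₂_curry.comp (Primrec.const _) Primrec.id), fun n hn => good_iff.2
      ⟨fun m => ?_, List.range n, ⟨List.nodup_range, List.length_range, hn⟩, ?_⟩⟩
  · simp only [h1]
    split_ifs <;> simp
  · rintro ⟨m, ⟨a, b⟩ | ⟨a, b⟩⟩ <;> simp [h1, a] at b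

theorem result : ∃ K : Set Str, (∀ A ∈ K, ∀ B, Iso A B → B ∈ K) ∧ Sig 3 (E K) ∧
    ¬Sig 3 (fun p => ¬E K p) ∧ ¬∀ P : ℕ → Prop, Sig 3 P → ManyOneReducible P (E K) := by
  refine ⟨K0, ?_, (Sig.ex ((sig_S.pc Primrec.snd).and sig_good2)).of_eq fun p => (E_iff p).symm,
    fun h => ?_, fun h => ?_⟩
  · rintro A ⟨a, b, c⟩ B ⟨f, hf⟩
    refine ⟨fun u v h => a _ _ ((hf (f.symm ⟨u, (B.sub u v h).1⟩) (f.symm ⟨v, (B.sub u v h).2⟩)).2
      (by simpa using h)), ?_, Set.ncard_congr' f ▸ c⟩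
    have := b.to_subtype
    exact Finite.of_equiv _ f
  · obtain ⟨g, h1, h2⟩ := exists_idx
    refine not_sig_S (((Sig.prim (Primrec.eq.comp Primrec.id (Primrec.const 0))).or
      (h.pc (h1.pair h1))).of_eq fun n => ?_)
    rcases n.eq_zero_or_pos with rfl | hn
    · exact iff_of_true (.inl rfl) fun h => (S_pos h).false
    · refine (or_iff_right hn.ne').trans (not_congr ((E_iff _).trans ⟨?_, fun h =>
        ⟨n, h, h2 n hn, h2 n hn⟩⟩))
      rintro ⟨k, a, b, -⟩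
      exact b.uniq (h2 n hn) ▸ a
  · let P : ℕ → Prop := fun x => ∃ v, V x.unpair.1 x v ∧
      ((¬∃ n, Good v.unpair.1 n ∧ Good v.unpair.2 n) ∨ ∃ n, (Good v.unpair.1 n ∧ Good v.unpair.2 n) ∧
        n ∈ (decode (α := List ℕ) x.unpair.2).getD [])
    have a : Sig 3 fun q : (ℕ × ℕ) × ℕ => Good q.1.2.unpair.1 q.2 ∧ Good q.1.2.unpair.2 q.2 :=
      sig_good2.pc ((Primrec.unpair.comp (Primrec.snd.comp Primrec.fst)).pair Primrec.snd)
    obtain ⟨f, f1, f2⟩ := h P (Sig.ex ((sig_V (u1.comp Primrec.fst) Primrec.fst Primrec.snd).and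
      ((sig_bad.pc (Primrec.unpair.comp Primrec.snd)).or (Sig.ex (a.and (Sig.prim
        (prim_mem.comp (Primrec.option_getD.comp (Primrec.decode.comp (u2.comp
          (Primrec.fst.comp Primrec.fst))) (Primrec.const _)) Primrec.snd)))))))
    obtain ⟨e, he⟩ := exists_V (Computable.encode.comp f1)
    have b : ∀ l : List ℕ, ((¬∃ n, Good (f (e.pair (encode l))).1 n ∧ Good (f (e.pair (encode l))).2 n) ∨
        ∃ n, (Good (f (e.pair (encode l))).1 n ∧ Good (f (e.pair (encode l))).2 n) ∧ n ∈ l) ↔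
        ∃ n, S n ∧ Good (f (e.pair (encode l))).1 n ∧ Good (f (e.pair (encode l))).2 n := fun l => by
      rw [← E_iff, ← f2]
      have : ∀ v, V e (e.pair (encode l)) v ↔ v = _ := he (e.pair (encode l))
      have e2 : ∀ p : ℕ × ℕ, Nat.unpair (encode p) = p := fun p => Nat.unpair_pair _ _
      simp [P, this, e2]
    refine no_prod (G := fun l n => Good (f (e.pair (encode l))).1 n ∧ Good (f (e.pair (encode l))).2 n)
      (sig_good2.comp ((f1.comp (Primrec₂.natPair.comp (Primrec.const e)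
        (Primrec.encode.comp Primrec.fst)).to_comp).pair Computable.snd)) (fun l => ?_) fun l x hx => ?_
    · by_contra hc
      obtain ⟨n, -, hn⟩ := (b l).1 (.inl hc)
      exact hc ⟨n, hn⟩
    · refine ⟨fun h => ?_, fun h => ?_⟩
      · obtain ⟨n, h1, h2⟩ := (b l).1 (.inr ⟨x, hx, h⟩)
        exact h2.1.uniq hx.1 ▸ h1
      · obtain h1 | ⟨n, h1, h2⟩ := (b l).2 ⟨x, h, hx⟩
        · exact (h1 ⟨x, hx⟩).elim
        · exact h1.1.uniq hx.1 ▸ h2

end Pool.Agent.Results.MP_be00aa_lc.Proper
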